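import Mathlib

/-!
# Project ZE: from the uniform theorem to the explicit inequality

`log c ≤ N ^ (C log log log N / log log N)`, `N = max 16 (rad (a b c))`.
-/

set_option autoImplicit false

namespace Pool.Agent.Helper58.ZEU

open Finset

/-- Inversion: if `N > L ^ B` for every `B` with `(B + 1) ^ (D B) ≤ log L`, then
`log L ≤ 8 D log N log log log N / log log N`. -/
theorem inversionD {D : ℕ} {L N : ℝ} (hD : 1 ≤ D) (hL : Real.exp (Real.exp (16 * D ^ 2 + 16)) ≤ L)
    (h : ∀ B : ℕ, 1 ≤ B → ((B + 1 : ℕ) : ℝ) ^ (D * B) ≤ Real.log L → L ^ B < N) :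
    Real.log L ≤ 8 * D * (Real.log N * Real.log (Real.log (Real.log N)) / Real.log (Real.log N)) := by
  have hDR : (1 : ℝ) ≤ D := by exact_mod_cast hD
  have hL0 : 0 < L := (Real.exp_pos _).trans_le hL
  obtain ⟨l, hl⟩ : ∃ l : ℝ, l = Real.log L := ⟨_, rfl⟩
  have hl1 : Real.exp (16 * D ^ 2 + 16) ≤ l := by
    rw [hl, Real.le_log_iff_exp_le hL0]
    exact hL
  have hl0 : 0 < l := (Real.exp_pos _).trans_le hl1
  obtain ⟨y, hy⟩ : ∃ y : ℝ, y = Real.log l := ⟨_, rfl⟩
  have hy1 : 16 * (D : ℝ) ^ 2 + 16 ≤ y := by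
    rw [hy, Real.le_log_iff_exp_le hl0]
    exact hl1
  have hy0 : 0 < y := lt_of_lt_of_le (by positivity) hy1
  have hy16 : 16 ≤ y := by nlinarith [sq_nonneg (D : ℝ)]
  obtain ⟨z, hz⟩ : ∃ z : ℝ, z = Real.log y := ⟨_, rfl⟩
  have hz1 : 1 ≤ z := by
    rw [hz, Real.le_log_iff_exp_le hy0]
    have := Real.exp_one_lt_d9
    linarith
  have hzy : 2 * D * z ≤ y := by
    obtain ⟨s, hs⟩ : ∃ s : ℝ, s = Real.sqrt y := ⟨_, rfl⟩
    have hs2 : s ^ 2 = y := by rw [hs]; exact Real.sq_sqrt hy0.le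
    have hs4 : 4 * (D : ℝ) ≤ s := by
      rw [hs]
      refine Real.le_sqrt_of_sq_le ?_
      nlinarith
    have hs1 : 0 < s := by linarith
    have h3 : Real.log y = 2 * Real.log s := by rw [← hs2, Real.log_pow]; push_cast; ring
    have h4 : Real.log s ≤ s := (Real.log_le_sub_one_of_pos hs1).trans (by linarith)
    have h5 : z ≤ 2 * s := by rw [hz, h3]; linarith
    calc 2 * D * z ≤ 2 * D * (2 * s) := mul_le_mul_of_nonneg_left h5 (by positivity)
      _ = (4 * D) * s := by ring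
      _ ≤ s * s := mul_le_mul_of_nonneg_right hs4 hs1.le
      _ = y := by rw [← hs2]; ring
  -- the choice of `B`
  have hz0 : 0 < z := by linarith
  obtain ⟨t, ht⟩ : ∃ t : ℝ, t = y / (2 * D * z) := ⟨_, rfl⟩
  have ht1 : 1 ≤ t := by
    rw [ht, le_div_iff₀ (by positivity), one_mul]
    exact hzy
  obtain ⟨B, hB⟩ : ∃ B : ℕ, B = ⌊t⌋₊ := ⟨_, rfl⟩
  have hB1 : 1 ≤ B := by
    rw [hB]
    exact (Nat.one_le_floor_iff t).2 ht1
  have hBt : (B : ℝ) ≤ t := by
    rw [hB]
    exact Nat.floor_le (by linarith)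
  have hBR : (1 : ℝ) ≤ B := by exact_mod_cast hB1
  have htB : t ≤ 2 * B := by
    have h1 := Nat.lt_floor_add_one t
    rw [← hB] at h1
    linarith
  have htz : t * (2 * D * z) = y := by
    rw [ht]
    field_simp
  have hBz : (B : ℝ) * (2 * D * z) ≤ y := by
    rw [← htz]
    exact mul_le_mul_of_nonneg_right hBt (by positivity)
  have hU : ((B + 1 : ℕ) : ℝ) ^ (D * B) ≤ Real.log L := by
    rw [← hl]
    have h1 : ((B + 1 : ℕ) : ℝ) ≤ y := by
      push_cast
      have h2 : (B : ℝ) * 2 ≤ B * (2 * D * z) := by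
        refine mul_le_mul_of_nonneg_left ?_ (by linarith)
        nlinarith
      linarith
    have h2 : Real.log ((B + 1 : ℕ) : ℝ) ≤ z := by
      rw [hz]
      exact Real.log_le_log (by positivity) h1
    have h3 : Real.log (((B + 1 : ℕ) : ℝ) ^ (D * B)) ≤ Real.log l := by
      rw [Real.log_pow, ← hy, Nat.cast_mul]
      have h4 : (D : ℝ) * B * Real.log ((B + 1 : ℕ) : ℝ) ≤ D * B * z :=
        mul_le_mul_of_nonneg_left h2 (by positivity)
      have h5 : (0 : ℝ) ≤ D * B * z := by positivity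
      nlinarith
    exact (Real.log_le_log_iff (by positivity) hl0).1 h3
  have hN := h B hB1 hU
  have hN0 : 0 < N := lt_trans (by positivity) hN
  obtain ⟨n, hn⟩ : ∃ n : ℝ, n = Real.log N := ⟨_, rfl⟩
  have hn1 : B * l ≤ n := by
    rw [hl, hn, ← Real.log_pow]
    exact Real.log_le_log (by positivity) hN.le
  have hn2 : l * y ≤ 4 * D * z * n := by
    have h1 : y ≤ 2 * B * (2 * D * z) := by
      rw [← htz]
      exact mul_le_mul_of_nonneg_right htB (by positivity)
    calc l * y ≤ l * (2 * B * (2 * D * z)) := mul_le_mul_of_nonneg_left h1 hl0.le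
      _ = 4 * D * z * (B * l) := by ring
      _ ≤ 4 * D * z * n := mul_le_mul_of_nonneg_left hn1 (by positivity)
  have hn3 : l ≤ n := by
    calc l = 1 * l := (one_mul l).symm
      _ ≤ B * l := mul_le_mul_of_nonneg_right hBR hl0.le
      _ ≤ n := hn1
  have hn0 : 0 < n := by linarith
  obtain ⟨m, hm⟩ : ∃ m : ℝ, m = Real.log n := ⟨_, rfl⟩
  have hm1 : y ≤ m := by
    rw [hy, hm]
    exact Real.log_le_log hl0 hn3
  have hm0 : 0 < m := by linarith
  obtain ⟨k, hk⟩ : ∃ k : ℝ, k = Real.log m := ⟨_, rfl⟩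
  have hk1 : z ≤ k := by
    rw [hz, hk]
    exact Real.log_le_log hy0 hm1
  have hk0 : 0 < k := by linarith
  rw [← hn, ← hm, ← hk, ← hl]
  have hgoal : l * m ≤ 8 * D * (n * k) → l ≤ 8 * D * (n * k / m) := by
    intro h1
    rw [← mul_div_assoc, le_div_iff₀ hm0]
    exact h1
  apply hgoal
  rcases le_total n (l ^ 2) with hc | hc
  · have h1 : m ≤ 2 * y := by
      rw [hm, hy]
      have h2 := Real.log_le_log hn0 hc
      rw [Real.log_pow] at h2
      exact_mod_cast h2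
    calc l * m ≤ l * (2 * y) := mul_le_mul_of_nonneg_left h1 hl0.le
      _ = 2 * (l * y) := by ring
      _ ≤ 2 * (4 * D * z * n) := by linarith
      _ = 8 * D * (n * z) := by ring
      _ ≤ 8 * D * (n * k) := by
        refine mul_le_mul_of_nonneg_left (mul_le_mul_of_nonneg_left hk1 hn0.le) (by positivity)
  · obtain ⟨s, hs⟩ : ∃ s : ℝ, s = Real.sqrt n := ⟨_, rfl⟩
    have hs0 : 0 ≤ s := by rw [hs]; exact Real.sqrt_nonneg _
    have hs2 : s ^ 2 = n := by rw [hs]; exact Real.sq_sqrt hn0.le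
    have h1 : l ≤ s := by
      rw [hs]
      exact Real.le_sqrt_of_sq_le hc
    have hs1 : 0 < s := by linarith
    have h2 : m ≤ 2 * s := by
      have h3 : Real.log n = 2 * Real.log s := by rw [← hs2, Real.log_pow]; push_cast; ring
      have h4 : Real.log s ≤ s := (Real.log_le_sub_one_of_pos hs1).trans (by linarith)
      rw [hm, h3]
      linarith
    calc l * m ≤ s * (2 * s) := mul_le_mul h1 h2 hm0.le hs0
      _ = 2 * (n * 1) := by rw [← hs2]; ring
      _ ≤ 8 * D * (n * k) := by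
        refine mul_le_mul (by linarith) (mul_le_mul_of_nonneg_left (by linarith) hn0.le) (by positivity)
          (by positivity)

/-- The explicit inequality from the uniform theorem. -/
theorem explicit_of (D : ℕ) (hD : ∀ B a b : ℕ, 1 ≤ B → 0 < a → 0 < b → a.Coprime b →
    ((B + 1 : ℕ) : ℝ) ^ (D * B) ≤ Real.log (Real.log (a + b : ℕ)) →
    (Real.log (a + b : ℕ)) ^ B < ((∏ p ∈ (a * b * (a + b)).primeFactors, p : ℕ) : ℝ)) :
    ∃ C : ℝ, 0 < C ∧ ∀ a b : ℕ, 0 < a → 0 < b → a.Coprime b → ∀ N : ℝ,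
      N = max 16 ((∏ p ∈ (a * b * (a + b)).primeFactors, p : ℕ) : ℝ) →
      Real.log (a + b : ℕ) ≤
        N ^ (C * Real.log (Real.log (Real.log N)) / Real.log (Real.log N)) := by
  obtain ⟨D', hD'⟩ : ∃ D' : ℕ, D' = D + 1 := ⟨_, rfl⟩
  obtain ⟨Ls, hLs⟩ : ∃ Ls : ℝ, Ls = Real.exp (Real.exp (16 * D' ^ 2 + 16)) := ⟨_, rfl⟩
  have hLs0 : 0 < Ls := by rw [hLs]; exact Real.exp_pos _
  obtain ⟨k0, hk0⟩ : ∃ k0 : ℝ, k0 = Real.log (Real.log (Real.log 16)) := ⟨_, rfl⟩
  have h16 : Real.exp 1 < Real.log 16 := by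
    have h1 : Real.log 16 = 4 * Real.log 2 := by
      rw [show (16 : ℝ) = 2 ^ 4 by norm_num, Real.log_pow]
      norm_num
    rw [h1]
    have h2 := Real.log_two_gt_d9
    have h3 := Real.exp_one_lt_d9
    linarith
  have h16' : 1 < Real.log (Real.log 16) := by
    rw [Real.lt_log_iff_exp_lt ((Real.exp_pos 1).trans h16)]
    exact h16
  have hk00 : 0 < k0 := by rw [hk0]; exact Real.log_pos h16'
  refine ⟨max (8 * D') (|Real.log Ls| / k0), lt_max_of_lt_left (by rw [hD']; positivity), ?_⟩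
  intro a b ha hb hab N hN
  have hNR : (16 : ℝ) ≤ N := by rw [hN]; exact le_max_left _ _
  have hN0 : 0 < N := by linarith
  obtain ⟨n, hn⟩ : ∃ n : ℝ, n = Real.log N := ⟨_, rfl⟩
  obtain ⟨m, hm⟩ : ∃ m : ℝ, m = Real.log n := ⟨_, rfl⟩
  obtain ⟨k, hk⟩ : ∃ k : ℝ, k = Real.log m := ⟨_, rfl⟩
  have hn1 : Real.log 16 ≤ n := by rw [hn]; exact Real.log_le_log (by norm_num) hNR
  have hn0 : 0 < n := lt_of_lt_of_le ((Real.exp_pos 1).trans h16) hn1
  have hm1 : Real.log (Real.log 16) ≤ m := by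
    rw [hm]
    exact Real.log_le_log ((Real.exp_pos 1).trans h16) hn1
  have hm0 : 0 < m := by linarith
  have hk1 : k0 ≤ k := by
    rw [hk0, hk]
    exact Real.log_le_log (by linarith) hm1
  have hmn : m ≤ n := by
    rw [hm]
    exact (Real.log_le_sub_one_of_pos hn0).trans (by linarith)
  have hg : k0 ≤ n * k / m := by
    rw [le_div_iff₀ hm0]
    calc k0 * m ≤ k * n := mul_le_mul hk1 hmn hm0.le (by linarith)
      _ = n * k := mul_comm _ _
  have hg0 : 0 < n * k / m := lt_of_lt_of_le hk00 hg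
  rw [Real.rpow_def_of_pos hN0, ← hn, ← hm, ← hk]
  have he : n * (max (8 * (D' : ℝ)) (|Real.log Ls| / k0) * k / m) =
      max (8 * (D' : ℝ)) (|Real.log Ls| / k0) * (n * k / m) := by ring
  rw [he]
  rcases le_total Ls (Real.log (a + b : ℕ)) with hc | hc
  · have h2 : Real.exp (Real.exp (16 * D' ^ 2 + 16)) ≤ Real.log (a + b : ℕ) := by
      rw [hLs] at hc
      exact hc
    have h4 : 0 < Real.log (a + b : ℕ) := (Real.exp_pos _).trans_le h2
    have h3 := inversionD (D := D') (N := N) (by omega) h2 (fun B hB hU => by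
      have h5 : ((B + 1 : ℕ) : ℝ) ^ (D * B) ≤ Real.log (Real.log (a + b : ℕ)) := by
        refine le_trans (pow_le_pow_right₀ (by exact_mod_cast (by omega : 1 ≤ B + 1)) ?_) hU
        rw [hD']
        nlinarith
      exact lt_of_lt_of_le (hD B a b hB ha hb hab h5) (by rw [hN]; exact le_max_right _ _))
    rw [← hn, ← hm, ← hk] at h3
    rw [← Real.log_le_iff_le_exp h4]
    exact h3.trans (mul_le_mul_of_nonneg_right (le_max_left _ _) hg0.le)
  · refine hc.trans ?_
    rw [← Real.log_le_iff_le_exp hLs0]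
    calc Real.log Ls ≤ |Real.log Ls| := le_abs_self _
      _ = |Real.log Ls| / k0 * k0 := by field_simp
      _ ≤ |Real.log Ls| / k0 * (n * k / m) := mul_le_mul_of_nonneg_left hg (by positivity)
      _ ≤ max (8 * (D' : ℝ)) (|Real.log Ls| / k0) * (n * k / m) :=
        mul_le_mul_of_nonneg_right (le_max_right _ _) hg0.le

end Pool.Agent.Helper58.ZEU
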