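import Pool.Agent.Helper58.ZEU.Omega

/-!
# Project ZE, explicit form: from the uniform theorem to the explicit inequality
-/

set_option autoImplicit false

namespace Pool.Agent.Helper58.ZEU

open Finset

/-- Inversion: if `N > L ^ B` for every `B` with `U B L`, then
`log L ≤ 2 ^ 18 log N log log log N / log log N`. -/
theorem inversion {L N : ℝ} (hL : Real.exp (Real.exp (2 ^ 19)) ≤ L)
    (h : ∀ B : ℕ, 1 ≤ B → U B L → L ^ B < N) :
    Real.log L ≤ 2 ^ 18 * (Real.log N * Real.log (Real.log (Real.log N)) / Real.log (Real.log N)) := by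
  have hL0 : 0 < L := (Real.exp_pos _).trans_le hL
  obtain ⟨l, hl⟩ : ∃ l : ℝ, l = Real.log L := ⟨_, rfl⟩
  have hl1 : Real.exp (2 ^ 19) ≤ l := by
    rw [hl, Real.le_log_iff_exp_le hL0]
    exact hL
  have hl0 : 0 < l := (Real.exp_pos _).trans_le hl1
  obtain ⟨y, hy⟩ : ∃ y : ℝ, y = Real.log l := ⟨_, rfl⟩
  have hy1 : (2 : ℝ) ^ 19 ≤ y := by
    rw [hy, Real.le_log_iff_exp_le hl0]
    exact hl1
  have hy0 : 0 < y := lt_of_lt_of_le (by positivity) hy1
  obtain ⟨z, hz⟩ : ∃ z : ℝ, z = Real.log y := ⟨_, rfl⟩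
  have hl2a := Real.log_two_gt_d9
  have hl2b := Real.log_two_lt_d9
  have hz1 : 13 ≤ z := by
    have h1 : Real.log ((2 : ℝ) ^ 19) ≤ z := by
      rw [hz]
      exact Real.log_le_log (by positivity) hy1
    rw [Real.log_pow] at h1
    push_cast at h1
    linarith
  have hzy : 2 ^ 15 * z ≤ y := by
    have h1 : Real.log (y / 2 ^ 19) ≤ y / 2 ^ 19 - 1 := Real.log_le_sub_one_of_pos (by positivity)
    rw [Real.log_div hy0.ne' (by positivity), Real.log_pow, ← hz] at h1
    push_cast at h1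
    have h2 : z ≤ y / 2 ^ 19 - 1 + 19 * Real.log 2 := by linarith
    have h3 : 1 ≤ y / 2 ^ 19 := by rw [le_div_iff₀ (by positivity)]; linarith
    have h4 : z ≤ 16 * (y / 2 ^ 19) := by linarith
    have h5 : 2 ^ 15 * (16 * (y / 2 ^ 19)) = y := by ring
    nlinarith
  -- the choice of `B`
  have hz0 : 0 < z := by linarith
  obtain ⟨t, ht⟩ : ∃ t : ℝ, t = y / (2 ^ 15 * z) := ⟨_, rfl⟩
  have ht1 : 1 ≤ t := by
    rw [ht, le_div_iff₀ (by positivity), one_mul]
    exact hzy
  obtain ⟨B, hB⟩ : ∃ B : ℕ, B = ⌊t⌋₊ := ⟨_, rfl⟩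
  have hB1 : 1 ≤ B := by
    rw [hB]
    exact (Nat.one_le_floor_iff t).2 ht1
  have hBt : (B : ℝ) ≤ t := by
    rw [hB]
    exact Nat.floor_le (by linarith)
  have hBR : (1 : ℝ) ≤ B := by exact_mod_cast hB1
  have htB : t ≤ 2 * B := by
    have h1 := Nat.lt_floor_add_one t
    rw [← hB] at h1
    linarith
  have htz : t * (2 ^ 15 * z) = y := by
    rw [ht]
    field_simp
  have hBz : (B : ℝ) * (2 ^ 15 * z) ≤ y := by
    rw [← htz]
    exact mul_le_mul_of_nonneg_right hBt (by positivity)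
  have hU : U B L := by
    unfold U
    rw [← hl]
    have h1 : (2048 * B : ℝ) ≤ y := by nlinarith
    have h2 : Real.log (2048 * B : ℝ) ≤ z := by
      rw [hz]
      exact Real.log_le_log (by positivity) h1
    have h3 : Real.log ((2048 * B : ℝ) ^ (8192 * B)) ≤ Real.log l := by
      rw [Real.log_pow, ← hy]
      push_cast
      have h4 : 8192 * (B : ℝ) * Real.log (2048 * B : ℝ) ≤ 8192 * B * z :=
        mul_le_mul_of_nonneg_left h2 (by positivity)
      nlinarith
    exact (Real.log_le_log_iff (by positivity) hl0).1 h3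
  have hN := h B hB1 hU
  have hN0 : 0 < N := lt_trans (by positivity) hN
  obtain ⟨n, hn⟩ : ∃ n : ℝ, n = Real.log N := ⟨_, rfl⟩
  have hn1 : B * l ≤ n := by
    rw [hl, hn, ← Real.log_pow]
    exact Real.log_le_log (by positivity) hN.le
  have hn2 : l * y ≤ 2 ^ 16 * z * n := by
    have h1 : y ≤ 2 * B * (2 ^ 15 * z) := by
      rw [← htz]
      exact mul_le_mul_of_nonneg_right htB (by positivity)
    calc l * y ≤ l * (2 * B * (2 ^ 15 * z)) := mul_le_mul_of_nonneg_left h1 hl0.le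
      _ = 2 ^ 16 * z * (B * l) := by ring
      _ ≤ 2 ^ 16 * z * n := mul_le_mul_of_nonneg_left hn1 (by positivity)
  have hn3 : l ≤ n := by
    calc l = 1 * l := (one_mul l).symm
      _ ≤ B * l := mul_le_mul_of_nonneg_right hBR hl0.le
      _ ≤ n := hn1
  have hn0 : 0 < n := by linarith
  obtain ⟨m, hm⟩ : ∃ m : ℝ, m = Real.log n := ⟨_, rfl⟩
  have hm1 : y ≤ m := by
    rw [hy, hm]
    exact Real.log_le_log hl0 hn3
  have hm0 : 0 < m := by linarith
  obtain ⟨k, hk⟩ : ∃ k : ℝ, k = Real.log m := ⟨_, rfl⟩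
  have hk1 : z ≤ k := by
    rw [hz, hk]
    exact Real.log_le_log hy0 hm1
  have hk0 : 0 < k := by linarith
  rw [← hn, ← hm, ← hk, ← hl]
  have hgoal : l * m ≤ 2 ^ 18 * (n * k) → l ≤ 2 ^ 18 * (n * k / m) := by
    intro h1
    rw [← mul_div_assoc, le_div_iff₀ hm0]
    exact h1
  apply hgoal
  rcases le_total n (l ^ 2) with hc | hc
  · have h1 : m ≤ 2 * y := by
      rw [hm, hy]
      have h2 := Real.log_le_log hn0 hc
      rw [Real.log_pow] at h2
      exact_mod_cast h2
    calc l * m ≤ l * (2 * y) := mul_le_mul_of_nonneg_left h1 hl0.le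
      _ = 2 * (l * y) := by ring
      _ ≤ 2 * (2 ^ 16 * z * n) := by linarith
      _ = 2 ^ 17 * (n * z) := by ring
      _ ≤ 2 ^ 17 * (n * k) := by
        refine mul_le_mul_of_nonneg_left (mul_le_mul_of_nonneg_left hk1 hn0.le) (by positivity)
      _ ≤ 2 ^ 18 * (n * k) := by
        refine mul_le_mul_of_nonneg_right (by norm_num) (by positivity)
  · obtain ⟨s, hs⟩ : ∃ s : ℝ, s = Real.sqrt n := ⟨_, rfl⟩
    have hs0 : 0 ≤ s := by rw [hs]; exact Real.sqrt_nonneg _
    have hs2 : s ^ 2 = n := by rw [hs]; exact Real.sq_sqrt hn0.le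
    have h1 : l ≤ s := by
      rw [hs]
      exact Real.le_sqrt_of_sq_le hc
    have hs1 : 0 < s := by linarith
    have h2 : m ≤ 2 * s := by
      have h3 : Real.log n = 2 * Real.log s := by rw [← hs2, Real.log_pow]; push_cast; ring
      have h4 : Real.log s ≤ s := (Real.log_le_sub_one_of_pos hs1).trans (by linarith)
      rw [hm, h3]
      linarith
    calc l * m ≤ s * (2 * s) := mul_le_mul h1 h2 hm0.le hs0
      _ = 2 * n * 1 := by rw [← hs2]; ring
      _ ≤ 2 ^ 18 * n * k := by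
        refine mul_le_mul (mul_le_mul_of_nonneg_right (by norm_num) hn0.le) (by linarith) (by norm_num)
          (by positivity)
      _ = 2 ^ 18 * (n * k) := by ring

/-- The explicit inequality from the uniform theorem. -/
theorem explicit_of_unif (L1 : ℝ) (h : ∀ (B a b : ℕ), 1 ≤ B → 0 < a → 0 < b → a.Coprime b →
    L1 ≤ Real.log (a + b : ℕ) → U B (Real.log (a + b : ℕ)) →
    Real.log (a + b : ℕ) ^ B < ((∏ p ∈ (a * b * (a + b)).primeFactors, p : ℕ) : ℝ)) :
    ∃ C : ℝ, 0 < C ∧ ∀ a b : ℕ, 0 < a → 0 < b → a.Coprime b → ∀ N : ℕ,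
      N = ∏ p ∈ (a * b * (a + b)).primeFactors, p → 16 ≤ N →
      Real.log (a + b : ℕ) ≤
        Real.exp (C * (Real.log N * Real.log (Real.log (Real.log N)) / Real.log (Real.log N))) := by
  obtain ⟨Ls, hLs⟩ : ∃ Ls : ℝ, Ls = max L1 (Real.exp (Real.exp (2 ^ 19))) := ⟨_, rfl⟩
  have hLs0 : 0 < Ls := by rw [hLs]; exact lt_max_of_lt_right (Real.exp_pos _)
  obtain ⟨k0, hk0⟩ : ∃ k0 : ℝ, k0 = Real.log (Real.log (Real.log 16)) := ⟨_, rfl⟩
  have h16 : Real.exp 1 < Real.log 16 := by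
    have h1 : Real.log 16 = 4 * Real.log 2 := by
      rw [show (16 : ℝ) = 2 ^ 4 by norm_num, Real.log_pow]
      norm_num
    rw [h1]
    have h2 := Real.log_two_gt_d9
    have h3 := Real.exp_one_lt_d9
    linarith
  have h16' : 1 < Real.log (Real.log 16) := by
    rw [Real.lt_log_iff_exp_lt ((Real.exp_pos 1).trans h16)]
    exact h16
  have hk00 : 0 < k0 := by rw [hk0]; exact Real.log_pos h16'
  refine ⟨max (2 ^ 18) (|Real.log Ls| / k0), lt_max_of_lt_left (by positivity), ?_⟩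
  intro a b ha hb hab N hN hN16
  have hNR : (16 : ℝ) ≤ N := by exact_mod_cast hN16
  obtain ⟨n, hn⟩ : ∃ n : ℝ, n = Real.log N := ⟨_, rfl⟩
  obtain ⟨m, hm⟩ : ∃ m : ℝ, m = Real.log n := ⟨_, rfl⟩
  obtain ⟨k, hk⟩ : ∃ k : ℝ, k = Real.log m := ⟨_, rfl⟩
  have hn1 : Real.log 16 ≤ n := by rw [hn]; exact Real.log_le_log (by norm_num) hNR
  have hn0 : 0 < n := lt_of_lt_of_le ((Real.exp_pos 1).trans h16) hn1
  have hm1 : Real.log (Real.log 16) ≤ m := by
    rw [hm]
    exact Real.log_le_log ((Real.exp_pos 1).trans h16) hn1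
  have hm0 : 0 < m := by linarith
  have hk1 : k0 ≤ k := by
    rw [hk0, hk]
    exact Real.log_le_log (by linarith) hm1
  have hmn : m ≤ n := by
    rw [hm]
    exact (Real.log_le_sub_one_of_pos hn0).trans (by linarith)
  have hg : k0 ≤ n * k / m := by
    rw [le_div_iff₀ hm0]
    calc k0 * m ≤ k * n := mul_le_mul hk1 hmn hm0.le (by linarith)
      _ = n * k := mul_comm _ _
  rw [← hn, ← hm, ← hk]
  have hg0 : 0 < n * k / m := lt_of_lt_of_le hk00 hg
  rcases le_total Ls (Real.log (a + b : ℕ)) with hc | hc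
  · have h1 : L1 ≤ Real.log (a + b : ℕ) := by
      rw [hLs] at hc
      exact (le_max_left _ _).trans hc
    have h2 : Real.exp (Real.exp (2 ^ 19)) ≤ Real.log (a + b : ℕ) := by
      rw [hLs] at hc
      exact (le_max_right _ _).trans hc
    have h3 := inversion (N := N) h2 (fun B hB hU => by
      rw [hN]
      exact h B a b hB ha hb hab h1 hU)
    rw [← hn, ← hm, ← hk] at h3
    have h4 : 0 < Real.log (a + b : ℕ) := (Real.exp_pos _).trans_le h2
    rw [← Real.log_le_iff_le_exp h4]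
    exact h3.trans (mul_le_mul_of_nonneg_right (le_max_left _ _) hg0.le)
  · refine hc.trans ?_
    rw [← Real.log_le_iff_le_exp hLs0]
    calc Real.log Ls ≤ |Real.log Ls| := le_abs_self _
      _ = |Real.log Ls| / k0 * k0 := by field_simp
      _ ≤ |Real.log Ls| / k0 * (n * k / m) := mul_le_mul_of_nonneg_left hg (by positivity)
      _ ≤ max (2 ^ 18) (|Real.log Ls| / k0) * (n * k / m) :=
        mul_le_mul_of_nonneg_right (le_max_right _ _) hg0.le

end Pool.Agent.Helper58.ZEU
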