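import Pool.Agent.Helper58.ZEU.Omega

/-!
# Project ZE, explicit form: the final inequality, uniformly in `B`
-/

set_option autoImplicit false

namespace Pool.Agent.Helper58.ZEU

open Finset

/-- The real inequality behind `final_ineq_unif`; `x = 2048 B`. -/
theorem num_core {x q L lam lP lY lN A : ℝ} (hx : 2048 ≤ x) (hq : 1 ≤ q) (hlam : 0 ≤ lam)
    (hlam1 : 0 < lam)
    (hA : A = x * (q * (x / 4 + 1))) (hL : L ≤ x / 16 * lam * q) (hlP : lP ≤ x / 64 * lam)
    (hlN : lN ≤ x / 2048 * lam) (hlY : lY ≤ lP - lam / 2) :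
    q * lam + (A * lY + 2 * (x / 4 + 1) * L + (2 * A / (x / 128) + 2) * lN) <
      (x * (x / 4) - 1) * q * lP := by
  have hA0 : 0 ≤ A := by rw [hA]; positivity
  have h1 : A * lY ≤ A * lP - A * (lam / 2) := by
    calc A * lY ≤ A * (lP - lam / 2) := mul_le_mul_of_nonneg_left hlY hA0
      _ = _ := by ring
  have h2 : 2 * (x / 4 + 1) * L ≤ 2 * (x / 4 + 1) * (x / 16 * lam * q) :=
    mul_le_mul_of_nonneg_left hL (by linarith)
  have h3 : (2 * A / (x / 128) + 2) * lN ≤ (2 * A / (x / 128) + 2) * (x / 2048 * lam) :=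
    mul_le_mul_of_nonneg_left hlN (by positivity)
  have h4 : (2 * A / (x / 128) + 2) * (x / 2048 * lam) = A * lam / 8 + x * lam / 1024 := by
    have hx0 : x ≠ 0 := by linarith
    field_simp
    ring
  have h5 : A * lP - (x * (x / 4) - 1) * q * lP = (x + 1) * q * lP := by
    rw [hA]
    ring
  have h6 : (x + 1) * q * lP ≤ (x + 1) * q * (x / 64 * lam) :=
    mul_le_mul_of_nonneg_left hlP (by positivity)
  have h7 : A * (lam / 2) - A * lam / 8 = 3 / 8 * (x * (q * (x / 4 + 1))) * lam := by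
    rw [hA]
    ring
  have hql : 0 < q * lam := by positivity
  have h8 : x * lam / 1024 ≤ x * (q * lam) / 1024 := by
    have : lam ≤ q * lam := by nlinarith
    have h9 : x * lam ≤ x * (q * lam) := mul_le_mul_of_nonneg_left this (by linarith)
    linarith
  -- everything is a multiple of `q lam`
  have h10 : q * lam + 2 * (x / 4 + 1) * (x / 16 * lam * q) + x * (q * lam) / 1024 +
      (x + 1) * q * (x / 64 * lam) < 3 / 8 * (x * (q * (x / 4 + 1))) * lam := by
    have h11 : 1 + 2 * (x / 4 + 1) * (x / 16) + x / 1024 + (x + 1) * (x / 64) <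
        3 / 8 * (x * (x / 4 + 1)) := by nlinarith
    calc _ = (1 + 2 * (x / 4 + 1) * (x / 16) + x / 1024 + (x + 1) * (x / 64)) * (q * lam) := by ring
      _ < 3 / 8 * (x * (x / 4 + 1)) * (q * lam) := mul_lt_mul_of_pos_right h11 hql
      _ = _ := by ring
  linarith

/-- The final inequality, uniformly in `B`. -/
theorem final_ineq_unif {B : ℕ} {L lP lY lN : ℝ} {Q q r s0 K T0 T1 : ℕ} (hB : 1 ≤ B) (hU : U B L)
    (hL0 : 0 < L) (hr : r + 1 = 2048 * B) (hs0 : s0 = 512 * B) (hK : K = 16 * B)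
    (hL : L ≤ 128 * B * Real.log L * Q) (hQ : Q < q) (hlN0 : 0 ≤ lN) (hlN : lN ≤ B * Real.log L)
    (hlP : 4 * Q * lP ≤ L) (hlY : lY ≤ lP - Real.log L / 2)
    (hT0 : T0 ≤ ((r + 1) * s0) * ((r + 1) * s0 * r) ^ r * T1) (hT1 : 1 ≤ T1) (hT1' : T1 ≤ q ^ r) :
    Real.log ((T0 + T1).factorial : ℝ) +
      T0 * ((3 * ((r + 1) * (q * (s0 + 1))) + 2 * (s0 + 1)) * Real.log 2) +
      T1 * ((r + 1) * (q * (s0 + 1)) * Real.log 2 + ((r + 1) * (q * (s0 + 1)) * lY + 2 * (s0 + 1) * L +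
        (2 * ((r + 1) * (q * (s0 + 1))) / K + 2) * lN)) <
      ((r + 1) * s0 - 1) * q * T1 * lP := by
  have hBR : (1 : ℝ) ≤ B := by exact_mod_cast hB
  obtain ⟨x, hx⟩ : ∃ x : ℝ, x = 2048 * B := ⟨_, rfl⟩
  have hx1 : 2048 ≤ x := by rw [hx]; linarith
  have hBx : (B : ℝ) = x / 2048 := by rw [hx]; ring
  have hrx : (r : ℝ) + 1 = x := by
    have : ((r + 1 : ℕ) : ℝ) = ((2048 * B : ℕ) : ℝ) := by rw [hr]
    push_cast at this
    rw [hx]
    exact this
  have hsx : (s0 : ℝ) = x / 4 := by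
    rw [hs0, hx]
    push_cast
    ring
  have hKx : (K : ℝ) = x / 128 := by
    rw [hK, hx]
    push_cast
    ring
  obtain ⟨lam, hlam⟩ : ∃ lam : ℝ, lam = Real.log L := ⟨_, rfl⟩
  have hU' : x ^ (8192 * B) ≤ lam := by rw [hx, hlam]; exact hU
  obtain ⟨c, hc⟩ : ∃ c : ℝ, c = x ^ (6144 * B) := ⟨_, rfl⟩
  have hc1 : 1 ≤ c := by rw [hc]; exact one_le_pow₀ (by linarith)
  have hcl : 13 * c * x ^ 2 ≤ lam := by
    refine le_trans ?_ hU'
    have h1 : x ^ (8192 * B) = x ^ (6144 * B) * x ^ (2048 * B) := by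
      rw [← pow_add]
      congr 1
      ring
    have h2 : x ^ 3 ≤ x ^ (2048 * B) := pow_le_pow_right₀ (by linarith) (by omega)
    rw [h1, ← hc]
    have h3 : 13 * x ^ 2 ≤ x ^ 3 := by nlinarith [sq_nonneg x]
    nlinarith
  have hlam1 : 0 < lam := by
    have : 0 < 13 * c * x ^ 2 := by positivity
    linarith
  rw [← hlam] at hL hlN hlY
  -- `Q` and `q` are positive
  have hQ0 : 0 < Q := by
    rcases Nat.eq_zero_or_pos Q with h | h
    · rw [h] at hL
      simp at hL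
      linarith
    · exact h
  have hQR : (0 : ℝ) < Q := by exact_mod_cast hQ0
  have hqR : (1 : ℝ) ≤ q := by exact_mod_cast (by omega : 1 ≤ q)
  have hQq : (Q : ℝ) ≤ q := by exact_mod_cast hQ.le
  have hlP' : lP ≤ x / 64 * lam := by
    have h1 : 4 * Q * lP ≤ 128 * B * lam * Q := hlP.trans hL
    have h2 : 4 * (Q : ℝ) * lP ≤ 4 * Q * (x / 64 * lam) := by
      rw [hBx] at h1
      calc _ ≤ _ := h1
        _ = _ := by ring
    exact le_of_mul_le_mul_left h2 (by positivity)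
  have hL' : L ≤ x / 16 * lam * q := by
    rw [hBx] at hL
    calc L ≤ 128 * (x / 2048) * lam * Q := hL
      _ = x / 16 * lam * Q := by ring
      _ ≤ x / 16 * lam * q := mul_le_mul_of_nonneg_left hQq (by positivity)
  -- the bound for `T0`
  have hT0R : (T0 : ℝ) ≤ c * T1 := by
    have h1 : (T0 : ℝ) ≤ ((((r + 1) * s0) * ((r + 1) * s0 * r) ^ r * T1 : ℕ) : ℝ) := by
      exact_mod_cast hT0
    push_cast at h1
    rw [hrx, hsx] at h1
    refine h1.trans (mul_le_mul_of_nonneg_right ?_ (Nat.cast_nonneg _))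
    have hr0 : (r : ℝ) ≤ x := by linarith
    have h2 : x * (x / 4) ≤ x ^ 2 := by nlinarith
    have h3 : x * (x / 4) * r ≤ x ^ 3 := by
      calc x * (x / 4) * r ≤ x ^ 2 * x := mul_le_mul h2 hr0 (Nat.cast_nonneg _) (by positivity)
        _ = x ^ 3 := by ring
    calc x * (x / 4) * (x * (x / 4) * r) ^ r ≤ x ^ 2 * (x ^ 3) ^ r := by
          refine mul_le_mul h2 (pow_le_pow_left₀ (by positivity) h3 _) (by positivity) (by positivity)
      _ = x ^ (3 * r + 2) := by rw [← pow_mul, ← pow_add]; congr 1; ring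
      _ ≤ x ^ (6144 * B) := pow_le_pow_right₀ (by linarith) (by omega)
      _ = c := hc.symm
  have hT1R : (1 : ℝ) ≤ T1 := by exact_mod_cast hT1
  -- the factorial
  have hfac : Real.log ((T0 + T1).factorial : ℝ) ≤ 10 * c * x ^ 2 * q * T1 := by
    have h1 : ((T0 + T1).factorial : ℝ) ≤ ((T0 + T1 : ℕ) : ℝ) ^ (T0 + T1) := by
      exact_mod_cast Nat.factorial_le_pow (T0 + T1)
    have h2 : Real.log ((T0 + T1).factorial : ℝ) ≤ (T0 + T1 : ℕ) * Real.log ((T0 + T1 : ℕ) : ℝ) := by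
      rw [← Real.log_pow]
      exact Real.log_le_log (by exact_mod_cast Nat.factorial_pos _) h1
    have h3 : ((T0 + T1 : ℕ) : ℝ) ≤ 2 * c * T1 := by
      push_cast
      nlinarith
    have h4 : Real.log ((T0 + T1 : ℕ) : ℝ) ≤ 5 * x ^ 2 * q := by
      have h5 : ((T0 + T1 : ℕ) : ℝ) ≤ 2 * c * q ^ r := by
        refine h3.trans (mul_le_mul_of_nonneg_left ?_ (by positivity))
        exact_mod_cast hT1'
      have h6 : 0 < ((T0 + T1 : ℕ) : ℝ) := by exact_mod_cast (by omega : 0 < T0 + T1)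
      have h7 : Real.log ((T0 + T1 : ℕ) : ℝ) ≤ Real.log (2 * c * q ^ r) := Real.log_le_log h6 h5
      rw [Real.log_mul (by positivity) (by positivity), Real.log_mul (by norm_num) (by positivity),
        Real.log_pow, hc, Real.log_pow] at h7
      have h8 : Real.log x ≤ x := (Real.log_le_sub_one_of_pos (by linarith)).trans (by linarith)
      have h9 : Real.log (q : ℝ) ≤ q := (Real.log_le_sub_one_of_pos (by linarith)).trans (by linarith)
      have h10 : Real.log 2 ≤ 1 := by linarith [Real.log_two_lt_d9]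
      have h11 : ((6144 * B : ℕ) : ℝ) * Real.log x ≤ 3 * x * x := by
        have : ((6144 * B : ℕ) : ℝ) = 3 * x := by rw [hx]; push_cast; ring
        rw [this]
        exact mul_le_mul_of_nonneg_left h8 (by linarith)
      have h12 : (r : ℝ) * Real.log (q : ℝ) ≤ x * q := by
        refine mul_le_mul (by linarith) h9 (Real.log_nonneg hqR) (by linarith)
      have h13 : x * x ≤ x * x * q := by nlinarith [mul_pos (by linarith : 0 < x) (by linarith : 0 < x)]
      nlinarith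
    calc Real.log ((T0 + T1).factorial : ℝ) ≤ (T0 + T1 : ℕ) * Real.log ((T0 + T1 : ℕ) : ℝ) := h2
      _ ≤ (2 * c * T1) * (5 * x ^ 2 * q) := by
        refine mul_le_mul h3 h4 (Real.log_nonneg ?_) (by positivity)
        exact_mod_cast (by omega : 1 ≤ T0 + T1)
      _ = 10 * c * x ^ 2 * q * T1 := by ring
  have hlog2 : Real.log 2 ≤ 1 := by linarith [Real.log_two_lt_d9]
  have hlog20 : 0 ≤ Real.log 2 := Real.log_nonneg (by norm_num)
  rw [hrx, hsx, hKx]
  obtain ⟨A, hA⟩ : ∃ A : ℝ, A = x * (q * (x / 4 + 1)) := ⟨_, rfl⟩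
  rw [← hA]
  have hA0 : 0 ≤ A := by rw [hA]; positivity
  have hAle : A ≤ x ^ 2 * q / 2 := by
    rw [hA]
    have h1 : x / 4 + 1 ≤ x / 2 := by linarith
    calc x * (q * (x / 4 + 1)) ≤ x * (q * (x / 2)) := by
          refine mul_le_mul_of_nonneg_left (mul_le_mul_of_nonneg_left h1 (by linarith)) (by linarith)
      _ = _ := by ring
  have hex : (T0 : ℝ) * ((3 * A + 2 * (x / 4 + 1)) * Real.log 2) ≤ 2 * c * x ^ 2 * q * T1 := by
    have h1 : 2 * (x / 4 + 1) ≤ x ^ 2 * q / 2 := by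
      have : x ^ 2 ≤ x ^ 2 * q := by nlinarith [sq_nonneg x]
      nlinarith
    have h2 : (3 * A + 2 * (x / 4 + 1)) * Real.log 2 ≤ 2 * x ^ 2 * q := by
      calc (3 * A + 2 * (x / 4 + 1)) * Real.log 2 ≤ (3 * A + 2 * (x / 4 + 1)) * 1 :=
            mul_le_mul_of_nonneg_left hlog2 (by positivity)
        _ ≤ 2 * x ^ 2 * q := by linarith
    calc (T0 : ℝ) * ((3 * A + 2 * (x / 4 + 1)) * Real.log 2) ≤ (c * T1) * (2 * x ^ 2 * q) :=
          mul_le_mul hT0R h2 (by positivity) (by positivity)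
      _ = _ := by ring
  have hAl : (T1 : ℝ) * (A * Real.log 2) ≤ c * x ^ 2 * q * T1 := by
    have h1 : A * Real.log 2 ≤ x ^ 2 * q := by
      calc A * Real.log 2 ≤ A * 1 := mul_le_mul_of_nonneg_left hlog2 hA0
        _ ≤ x ^ 2 * q := by
          have : 0 ≤ x ^ 2 * (q : ℝ) := by positivity
          linarith
    have h2 : x ^ 2 * (q : ℝ) ≤ c * x ^ 2 * q := by
      have : 0 ≤ x ^ 2 * (q : ℝ) := by positivity
      nlinarith
    calc (T1 : ℝ) * (A * Real.log 2) ≤ T1 * (c * x ^ 2 * q) :=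
          mul_le_mul_of_nonneg_left (h1.trans h2) (by linarith)
      _ = _ := by ring
  have hsum : 10 * c * x ^ 2 * q * T1 + 2 * c * x ^ 2 * q * T1 + c * x ^ 2 * q * T1 ≤
      T1 * (q * lam) := by
    calc _ = (13 * c * x ^ 2) * (q * T1) := by ring
      _ ≤ lam * (q * T1) := mul_le_mul_of_nonneg_right hcl (by positivity)
      _ = _ := by ring
  have hcore := num_core (A := A) (lN := lN) hx1 hqR hlam1.le hlam1 hA hL' hlP' (by rw [hBx] at hlN; exact hlN) hlY
  have hfin := mul_lt_mul_of_pos_left hcore (by linarith : (0 : ℝ) < T1)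
  have e1 : (T1 : ℝ) * (A * Real.log 2 + (A * lY + 2 * (x / 4 + 1) * L + (2 * A / (x / 128) + 2) * lN)) =
      T1 * (A * Real.log 2) + (T1 * (q * lam + (A * lY + 2 * (x / 4 + 1) * L +
        (2 * A / (x / 128) + 2) * lN)) - T1 * (q * lam)) := by ring
  rw [e1]
  calc _ ≤ T1 * (q * lam + (A * lY + 2 * (x / 4 + 1) * L + (2 * A / (x / 128) + 2) * lN)) := by
        linarith
    _ < T1 * ((x * (x / 4) - 1) * q * lP) := hfin
    _ = _ := by ring

end Pool.Agent.Helper58.ZEU
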