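import Mathlib

/-!
# Project ZE, explicit form: the number of boxes

`U B L` is the condition `(2048 B) ^ (8192 B) ≤ log L`, which replaces `L` large depending on `B`.
-/

set_option autoImplicit false

namespace Pool.Agent.Helper58.ZEU

open Finset

/-- The uniform condition: `B log B` is small against `log log L`. -/
def U (B : ℕ) (L : ℝ) : Prop := (2048 * B : ℝ) ^ (8192 * B) ≤ Real.log L

/-- The number of prime factors, without any prime number input. -/
theorem omega_le (N y : ℕ) (hy : 2 ≤ y) :
    (N.primeFactors.card : ℝ) ≤ y + Real.log (∏ p ∈ N.primeFactors, p : ℕ) / Real.log y := by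
  have hly : 0 < Real.log y := Real.log_pos (by exact_mod_cast (by omega : 1 < y))
  have h1 : (N.primeFactors.filter fun p => p ≤ y).card ≤ y := by
    have h2 : (N.primeFactors.filter fun p => p ≤ y) ⊆ Finset.Icc 1 y := by
      intro p hp
      rw [mem_filter] at hp
      rw [mem_Icc]
      exact ⟨(Nat.prime_of_mem_primeFactors hp.1).pos, hp.2⟩
    have h3 := card_le_card h2
    rwa [Nat.card_Icc, Nat.add_sub_cancel] at h3
  have h4 : ((N.primeFactors.filter fun p => ¬ p ≤ y).card : ℝ) * Real.log y ≤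
      Real.log (∏ p ∈ N.primeFactors, p : ℕ) := by
    rw [Nat.cast_prod, Real.log_prod (fun p hp => by
      exact_mod_cast (Nat.prime_of_mem_primeFactors hp).ne_zero), ← nsmul_eq_mul, ← sum_const]
    calc ∑ _p ∈ N.primeFactors.filter (fun p => ¬ p ≤ y), Real.log y
        ≤ ∑ p ∈ N.primeFactors.filter (fun p => ¬ p ≤ y), Real.log p := by
          refine sum_le_sum fun p hp => ?_
          rw [mem_filter] at hp
          refine Real.log_le_log (by exact_mod_cast (by omega : 0 < y)) ?_
          exact_mod_cast (not_le.1 hp.2).le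
      _ ≤ ∑ p ∈ N.primeFactors, Real.log p := by
          refine sum_le_sum_of_subset_of_nonneg (filter_subset _ _) fun p hp _ => ?_
          exact Real.log_nonneg (by exact_mod_cast (Nat.prime_of_mem_primeFactors hp).one_lt.le)
  have h5 : N.primeFactors.card = (N.primeFactors.filter fun p => p ≤ y).card +
      (N.primeFactors.filter fun p => ¬ p ≤ y).card :=
    (card_filter_add_card_filter_not (s := N.primeFactors) (fun p => p ≤ y)).symm
  have h6 : ((N.primeFactors.filter fun p => ¬ p ≤ y).card : ℝ) ≤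
      Real.log (∏ p ∈ N.primeFactors, p : ℕ) / Real.log y := by
    rw [le_div_iff₀ hly]
    exact h4
  have h7 : ((N.primeFactors.filter fun p => p ≤ y).card : ℝ) ≤ y := by exact_mod_cast h1
  have h8 : (N.primeFactors.card : ℝ) = ((N.primeFactors.filter fun p => p ≤ y).card : ℝ) +
      ((N.primeFactors.filter fun p => ¬ p ≤ y).card : ℝ) := by exact_mod_cast h5
  rw [h8]
  exact add_le_add h7 h6

/-- Consequences of the uniform condition. -/
theorem U.log_ge {B : ℕ} {L : ℝ} (hB : 1 ≤ B) (h : U B L) (k : ℕ) (hk : k ≤ 8192 * B) :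
    (2048 * B : ℝ) ^ k ≤ Real.log L := by
  refine le_trans (pow_le_pow_right₀ ?_ hk) h
  have : (1 : ℝ) ≤ B := by exact_mod_cast hB
  linarith

/-- `K ^ ω(N) ≤ L ^ (1 / 8)`, uniformly. -/
theorem pow_omega_unif {B K : ℕ} {L : ℝ} {N : ℕ} (hB : 1 ≤ B) (hK : K = 16 * B) (hU : U B L) (hL : 0 < L)
    (hN : (∏ p ∈ N.primeFactors, p : ℕ) ≤ L ^ B) :
    (K : ℝ) ^ N.primeFactors.card ≤ L ^ (1 / 8 : ℝ) := by
  have hBR : (1 : ℝ) ≤ B := by exact_mod_cast hB
  have hKR : (K : ℝ) = 16 * B := by rw [hK]; push_cast; ring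
  have hK2 : (2 : ℝ) ≤ K := by rw [hKR]; linarith
  have hlK : 0 < Real.log K := Real.log_pos (by linarith)
  have hlam : 0 ≤ Real.log L := le_trans (by positivity) hU
  have hy : 2 ≤ K ^ (16 * B) := by
    have : 2 ≤ K := by exact_mod_cast hK2
    calc 2 ≤ K := this
      _ = K ^ 1 := (pow_one K).symm
      _ ≤ K ^ (16 * B) := Nat.pow_le_pow_right (by omega) (by omega)
  have h1 := omega_le N (K ^ (16 * B)) hy
  have h2 : Real.log ((K ^ (16 * B) : ℕ) : ℝ) = 16 * B * Real.log K := by
    rw [Nat.cast_pow, Real.log_pow]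
    push_cast
    ring
  have h3 : Real.log (∏ p ∈ N.primeFactors, p : ℕ) ≤ B * Real.log L := by
    rw [← Real.log_pow]
    refine Real.log_le_log ?_ hN
    exact_mod_cast Finset.prod_pos fun p hp => (Nat.prime_of_mem_primeFactors hp).pos
  rw [h2] at h1
  have h4 : (K : ℝ) ^ (16 * B) * Real.log K ≤ Real.log L / 16 := by
    have h5 : Real.log K ≤ K := (Real.log_le_sub_one_of_pos (by linarith)).trans (by linarith)
    have h6 : (K : ℝ) ≤ 2048 * B := by rw [hKR]; linarith
    have h7 : (16 : ℝ) ≤ 2048 * B := by linarith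
    have h8 := hU.log_ge hB (16 * B + 2) (by omega)
    rw [pow_add, pow_two] at h8
    have h9 : (K : ℝ) ^ (16 * B) ≤ (2048 * B : ℝ) ^ (16 * B) :=
      pow_le_pow_left₀ (by linarith) h6 _
    have h10 : (K : ℝ) ^ (16 * B) * Real.log K ≤ (2048 * B : ℝ) ^ (16 * B) * (2048 * B) :=
      mul_le_mul h9 (h5.trans h6) hlK.le (by positivity)
    have h11 : (0 : ℝ) ≤ (2048 * B : ℝ) ^ (16 * B) * (2048 * B) := by positivity
    nlinarith
  have h12 : (N.primeFactors.card : ℝ) * Real.log K ≤ Real.log L / 8 := by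
    calc (N.primeFactors.card : ℝ) * Real.log K
        ≤ (((K ^ (16 * B) : ℕ) : ℝ) + Real.log (∏ p ∈ N.primeFactors, p : ℕ) / (16 * B * Real.log K)) *
            Real.log K := mul_le_mul_of_nonneg_right h1 hlK.le
      _ = (K : ℝ) ^ (16 * B) * Real.log K + Real.log (∏ p ∈ N.primeFactors, p : ℕ) / (16 * B) := by
          rw [Nat.cast_pow]
          field_simp
      _ ≤ Real.log L / 16 + B * Real.log L / (16 * B) := by
          refine add_le_add h4 ?_
          exact div_le_div_of_nonneg_right h3 (by positivity)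
      _ = Real.log L / 8 := by
          field_simp
          ring
  have h13 : Real.log ((K : ℝ) ^ N.primeFactors.card) ≤ Real.log (L ^ (1 / 8 : ℝ)) := by
    rw [Real.log_pow, Real.log_rpow hL]
    linarith
  exact (Real.log_le_log_iff (by positivity) (by positivity)).1 h13

end Pool.Agent.Helper58.ZEU
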