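import Pool.Agent.Helper58.ZEU.Num

/-!
# Project ZE, uniform forms: `pow_omega_leU`, `final_ineqU`, `explicit_of`
-/

set_option autoImplicit false

namespace Pool.Agent.Helper58.ZEU

open Finset

/-- The condition of the uniform frame implies `U`. -/
theorem U_of {B : ℕ} {L : ℝ} (hB : 1 ≤ B) (h : ((B + 1 : ℕ) : ℝ) ^ (98304 * B) ≤ Real.log L) : U B L := by
  unfold U
  refine le_trans ?_ h
  have hBR : (1 : ℝ) ≤ B := by exact_mod_cast hB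
  have h1 : (2048 * B : ℝ) ≤ ((B + 1 : ℕ) : ℝ) ^ 12 := by
    push_cast
    calc (2048 * B : ℝ) ≤ 2 ^ 11 * (B + 1) := by linarith
      _ ≤ (B + 1) ^ 11 * (B + 1) :=
        mul_le_mul_of_nonneg_right (pow_le_pow_left₀ (by norm_num) (by linarith) 11) (by linarith)
      _ = (B + 1) ^ 12 := by ring
  calc (2048 * B : ℝ) ^ (8192 * B) ≤ (((B + 1 : ℕ) : ℝ) ^ 12) ^ (8192 * B) :=
        pow_le_pow_left₀ (by positivity) h1 _
    _ = ((B + 1 : ℕ) : ℝ) ^ (98304 * B) := by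
        rw [← pow_mul]
        congr 1
        ring

/-- Conversely, `U` with a larger `B` gives the condition with any constant `D`. -/
theorem pow_le_of_U {B D : ℕ} {L : ℝ} (hB : 1 ≤ B) (hD : 1 ≤ D) (h : U (D * B) L) :
    ((B + 1 : ℕ) : ℝ) ^ (D * B) ≤ Real.log L := by
  unfold U at h
  refine le_trans ?_ h
  have hBR : (1 : ℝ) ≤ B := by exact_mod_cast hB
  have hDR : (1 : ℝ) ≤ D := by exact_mod_cast hD
  have hDB : (B : ℝ) ≤ D * B := by nlinarith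
  have h1 : ((B + 1 : ℕ) : ℝ) ≤ 2048 * ((D * B : ℕ) : ℝ) := by
    push_cast
    linarith
  have h2 : (1 : ℝ) ≤ ((B + 1 : ℕ) : ℝ) := by exact_mod_cast (by omega : 1 ≤ B + 1)
  calc ((B + 1 : ℕ) : ℝ) ^ (D * B) ≤ ((B + 1 : ℕ) : ℝ) ^ (8192 * (D * B)) :=
        pow_le_pow_right₀ h2 (by nlinarith)
    _ ≤ (2048 * ((D * B : ℕ) : ℝ)) ^ (8192 * (D * B)) := pow_le_pow_left₀ (by positivity) h1 _

theorem pow_omega_leU : ∃ D : ℕ, ∀ (B : ℕ) (L : ℝ) (N : ℕ), 1 ≤ B → 1 ≤ L →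
    ((B + 1 : ℕ) : ℝ) ^ (D * B) ≤ Real.log L →
    N ≠ 0 → (∏ p ∈ N.primeFactors, p : ℕ) ≤ L ^ B →
    ((16 * B : ℕ) : ℝ) ^ N.primeFactors.card ≤ L ^ (1 / 8 : ℝ) :=
  ⟨98304, fun _ _ _ hB hL h _ hN => pow_omega_unif hB rfl (U_of hB h) (by linarith) hN⟩

theorem final_ineqU : ∃ D : ℕ, ∀ (B : ℕ) (L lP lY lN : ℝ) (Q q r s0 K T0 T1 : ℕ), 1 ≤ B → 1 ≤ L →
    ((B + 1 : ℕ) : ℝ) ^ (D * B) ≤ Real.log L →
    r + 1 = 2048 * B → s0 = 512 * B → K = 16 * B → L ≤ 128 * B * Real.log L * Q → Q < q →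
    0 ≤ lN → lN ≤ B * Real.log L → 4 * Q * lP ≤ L → 0 ≤ lY → lY ≤ lP - Real.log L / 2 →
    T0 ≤ ((r + 1) * s0) * ((r + 1) * s0 * r) ^ r * T1 → 1 ≤ T1 → T1 ≤ q ^ r →
    Real.log ((T0 + T1).factorial : ℝ) +
      T0 * ((3 * ((r + 1) * (q * (s0 + 1))) + 2 * (s0 + 1)) * Real.log 2) +
      T1 * ((r + 1) * (q * (s0 + 1)) * Real.log 2 + ((r + 1) * (q * (s0 + 1)) * lY + 2 * (s0 + 1) * L +
        (2 * ((r + 1) * (q * (s0 + 1))) / K + 2) * lN)) <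
      ((r + 1) * s0 - 1) * q * T1 * lP :=
  ⟨98304, fun _ _ _ _ _ _ _ _ _ _ _ _ hB hL1 h hr hs0 hK hL hQ hlN0 hlN hlP _ hlY hT0 hT1 hT1' =>
    final_ineq_unif hB (U_of hB h) (by linarith) hr hs0 hK hL hQ hlN0 hlN hlP hlY hT0 hT1 hT1'⟩

end Pool.Agent.Helper58.ZEU
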